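import Pool.Agent.Helper4.It.Goals
import Pool.Agent.Helper20.Mono.Crd

/-!
# U3: unimodular refinements of the dual fan of a Newton polyhedron
-/

namespace Mono

namespace It

open Finset Filter Topology Mono.Comp

variable {n : ℕ}

/-- The standard basis. -/
def stdB (n : ℕ) : Finset (Fin n → ℤ) := univ.image (fun i => Pi.single i 1)

theorem stdB_inj (n : ℕ) : Function.Injective (fun i : Fin n => (Pi.single i 1 : Fin n → ℤ)) := by
  intro i j hij
  by_contra hne
  have h1 := congrFun hij i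
  simp only [Pi.single_eq_same] at h1
  rw [Pi.single_eq_of_ne hne] at h1
  exact one_ne_zero h1

theorem mem_stdB {u : Fin n → ℤ} : u ∈ stdB n ↔ ∃ i, Pi.single i 1 = u := by
  simp [stdB]

theorem toR_single (i : Fin n) : toR (Pi.single i 1 : Fin n → ℤ) = Pi.single i 1 := by
  funext j
  rw [toR_apply]
  by_cases h : j = i
  · subst h
    simp
  · rw [Pi.single_eq_of_ne h, Pi.single_eq_of_ne h]
    simp

theorem stdB_card (n : ℕ) : (stdB n).card = n := by
  rw [stdB, Finset.card_image_of_injective _ (stdB_inj n)]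
  simp

theorem sum_stdB {M : Type*} [AddCommMonoid M] (f : (Fin n → ℤ) → M) :
    ∑ u ∈ stdB n, f u = ∑ i : Fin n, f (Pi.single i 1) := by
  rw [stdB, Finset.sum_image (fun i _ j _ h => stdB_inj n h)]

theorem stdB_indep (n : ℕ) : Indep (stdB n) := by
  unfold Indep
  rw [Fintype.linearIndependent_iff]
  intro g hg
  have key : ∀ c : (Fin n → ℤ) → ℝ, ∑ u ∈ stdB n, c u • toR u = 0 → ∀ u ∈ stdB n, c u = 0 := by
    intro c hc u hu
    obtain ⟨i, rfl⟩ := mem_stdB.1 hu
    rw [sum_stdB] at hc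
    have h1 := congrFun hc i
    rw [Finset.sum_apply] at h1
    rw [Finset.sum_eq_single i] at h1
    · simpa [toR_single] using h1
    · intro j _ hj
      rw [Pi.smul_apply, toR_single, Pi.single_eq_of_ne (Ne.symm hj)]
      simp
    · intro h
      exact absurd (Finset.mem_univ i) h
  intro u
  have h1 := key (fun v => if hv : v ∈ stdB n then g ⟨v, hv⟩ else 0) (by
    rw [← hg, ← Finset.sum_coe_sort (stdB n)]
    refine Finset.sum_congr rfl fun v _ => ?_
    simp) u.1 u.2
  simpa using h1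

theorem crd_stdB (x : Fin n → ℝ) (i : Fin n) : crd (stdB n) x (Pi.single i 1) = x i := by
  classical
  have h := sum_crd (stdB_indep n) (stdB_card n) x
  rw [sum_stdB] at h
  have h1 := congrFun h i
  rw [Finset.sum_apply] at h1
  rw [Finset.sum_eq_single i] at h1
  · simpa [toR_single] using h1
  · intro j _ hj
    rw [Pi.smul_apply, toR_single, Pi.single_eq_of_ne (Ne.symm hj)]
    simp
  · intro h
    exact absurd (Finset.mem_univ i) h

/-- The fan of the faces of the orthant. -/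
def orthFan (n : ℕ) : Fan n where
  vert := stdB n
  mx := {stdB n}
  vert_nonneg := by
    intro u hu i
    obtain ⟨j, rfl⟩ := mem_stdB.1 hu
    by_cases h : i = j
    · subst h
      simp
    · rw [Pi.single_eq_of_ne h]
  mx_sub := by
    intro F hF
    rw [Finset.mem_singleton.1 hF]
  mx_card := by
    intro F hF
    rw [Finset.mem_singleton.1 hF]
    exact stdB_card n
  mx_indep := by
    intro F hF
    rw [Finset.mem_singleton.1 hF]
    exact stdB_indep n
  cover := by
    intro x hx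
    refine ⟨stdB n, Finset.mem_singleton_self _, ?_⟩
    intro u
    by_cases hu : u ∈ stdB n
    · obtain ⟨i, rfl⟩ := mem_stdB.1 hu
      rw [crd_stdB]
      exact hx i
    · rw [crd_of_notMem _ _ hu]
  inter := by
    intro F hF F' hF' x _ _ u hu
    rw [Finset.mem_singleton.1 hF]
    rw [Finset.mem_singleton.1 hF'] at hu
    exact crd_of_notMem _ _ hu

theorem closure_stdB (n : ℕ) : AddSubgroup.closure ((stdB n : Finset (Fin n → ℤ)) :
    Set (Fin n → ℤ)) = ⊤ := by
  rw [eq_top_iff]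
  intro x _
  have h1 : x = ∑ i : Fin n, x i • (Pi.single i 1 : Fin n → ℤ) := by
    funext j
    rw [Finset.sum_apply, Finset.sum_eq_single j]
    · simp
    · intro i _ hi
      rw [Pi.smul_apply, Pi.single_eq_of_ne (Ne.symm hi)]
      simp
    · intro h
      exact absurd (Finset.mem_univ j) h
  rw [h1]
  refine AddSubgroup.sum_mem _ fun i _ => AddSubgroup.zsmul_mem _ ?_ _
  refine AddSubgroup.subset_closure ?_
  exact Finset.mem_coe.2 (mem_stdB.2 ⟨i, rfl⟩)

theorem orthFan_unimod (n : ℕ) : Unimod (orthFan n) := by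
  intro δ hδ
  have h1 : δ = stdB n := Finset.mem_singleton.1 hδ
  rw [h1, idx, closure_stdB]
  exact AddSubgroup.relIndex_top_left _

/-- Common refinement: no vector of `M` changes sign on a cone. -/
theorem exists_uni (h : NoMix) (n : ℕ) (M : Finset (Fin n → ℤ)) : ∃ T : Fan n, Unimod T ∧
    ∀ m ∈ M, ∀ F ∈ T.mx, (∀ a ∈ F, 0 ≤ m ⬝ᵥ a) ∨ ∀ a ∈ F, m ⬝ᵥ a ≤ 0 := by
  classical
  induction M using Finset.induction_on with
  | empty =>
    refine ⟨orthFan n, orthFan_unimod n, ?_⟩
    intro m hm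
    exact absurd hm (Finset.notMem_empty m)
  | insert m M _ ih =>
    obtain ⟨T, hT, hM⟩ := ih
    obtain ⟨T', hT', href, hm⟩ := h n T m hT
    refine ⟨T', hT', ?_⟩
    intro m' hm' F' hF'
    rcases Finset.mem_insert.1 hm' with rfl | hm''
    · exact hm F' hF'
    · obtain ⟨F, hF, hc⟩ := href F' hF'
      rcases hM m' hm'' F hF with h1 | h1
      · refine Or.inl fun a ha => ?_
        obtain ⟨c, rfl⟩ := hc a ha
        rw [dotProduct_sum]
        refine Finset.sum_nonneg fun u hu => ?_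
        rw [dotProduct_smul]
        exact smul_nonneg (Nat.zero_le _) (h1 u hu)
      · refine Or.inr fun a ha => ?_
        obtain ⟨c, rfl⟩ := hc a ha
        rw [dotProduct_sum]
        refine Finset.sum_nonpos fun u hu => ?_
        rw [dotProduct_smul]
        exact smul_nonpos_of_nonneg_of_nonpos (Nat.zero_le _) (h1 u hu)

theorem NA_eq_of_le {A : Finset (Fin n → ℤ)} {a v : Fin n → ℤ} (hv : v ∈ A)
    (h : ∀ w ∈ A, a ⬝ᵥ v ≤ a ⬝ᵥ w) : a ⬝ᵥ v = NA A a := by
  have h1 : IsLeast {z : ℤ | ∃ v ∈ A, z = a ⬝ᵥ v} (a ⬝ᵥ v) := by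
    refine ⟨⟨v, hv, rfl⟩, ?_⟩
    rintro z ⟨w, hw, rfl⟩
    exact h w hw
  exact h1.csInf_eq.symm

/-- U3. -/
theorem uniFan (h : NoMix) : UniFan := by
  classical
  intro n A hA
  obtain ⟨T, hT, hM⟩ := exists_uni h n ((A ×ˢ A).image (fun p => p.1 - p.2))
  refine ⟨T, ?_, hT⟩
  intro F hF
  obtain ⟨v, hv, hmin⟩ := Finset.exists_min_image A (fun v => ∑ a ∈ F, a ⬝ᵥ v) hA
  refine ⟨v, hv, ?_⟩
  have key : ∀ w ∈ A, ∀ a ∈ F, a ⬝ᵥ v ≤ a ⬝ᵥ w := by
    intro w hw
    have h1 := hM (w - v) (Finset.mem_image.2 ⟨(w, v), Finset.mem_product.2 ⟨hw, hv⟩, rfl⟩) F hF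
    rcases h1 with h1 | h1
    · intro a ha
      have h2 := h1 a ha
      rw [dotProduct_comm, dotProduct_sub] at h2
      linarith
    · have h3 : ∀ a ∈ F, a ⬝ᵥ w ≤ a ⬝ᵥ v := by
        intro a ha
        have h2 := h1 a ha
        rw [dotProduct_comm, dotProduct_sub] at h2
        linarith
      have h4 : ∑ a ∈ F, a ⬝ᵥ w = ∑ a ∈ F, a ⬝ᵥ v :=
        le_antisymm (Finset.sum_le_sum h3) (hmin w hw)
      intro a ha
      exact ((Finset.sum_eq_sum_iff_of_le h3).1 h4 a ha).ge
  intro a ha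
  exact NA_eq_of_le hv fun w hw => key w hw a ha

end It

end Mono
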